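import Pool.Agent.W795.FloqFinal

/-! First kind pathologies of the Floquet matrix do occur, already for `n = 4` and for real valued
smooth coefficients: the operator is `(D^2 + q)^2` with a smooth `π`-periodic real `q` such that
the discriminant of `D^2 + q` has a critical point at `0` inside a gap. -/

set_option autoImplicit false

namespace Pool.Agent.Results.MP_1bac39_an.FloquetPathology

open Pool.Agent.W795.Floq
open scoped ContDiff

/-- There are real valued smooth `π`-periodic coefficients `p 0, p 1, p 2` such that the Floquet
matrix of `u'''' + p_2 u'' + p_1 u' + p_0 u = l u` (it exists, is unique, and is entire in `l`)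
has a pathology of the first kind over `0`. -/
theorem result :
    ∃ p : ℕ → ℝ → ℂ, (∀ k, ContDiff ℝ ∞ (p k)) ∧ (∀ k x, (p k x).im = 0) ∧
      (∀ k x, p k (x + Real.pi) = p k x) ∧
      (∃ T : ℂ → Matrix (Fin 4) (Fin 4) ℂ, IsFloquetMatrix 4 Real.pi p T) ∧
      ∀ T : ℂ → Matrix (Fin 4) (Fin 4) ℂ, IsFloquetMatrix 4 Real.pi p T →
        (∀ i j, Differentiable ℂ (fun l => T l i j)) ∧ HasFirstKindPathology T 0 :=
  main

end Pool.Agent.Results.MP_1bac39_an.FloquetPathology
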